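import Pool.Agent.Helper64.BD.Marks

set_option autoImplicit false

/-!
# A Borel directed graph of out-degree at most two without a bipartite Borel dominating set

The vertices are the triples of binary trees, properly labelled by five labels, with distinct root
labels. The two out-neighbours of a vertex are its images under two Borel automorphisms of order
three, which generate an action of the free product of two groups of order three. A Borel
dominating set which induces a Borel bipartite graph would give a Borel set which contradicts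
Marks's lemma, which we derive from Borel determinacy (proved in the imported files).
-/

namespace Pool.Agent.Results.MP_b8e903_lc.BorelCounterexample

open Pool.Agent.Helper64.BD

/-- The graph underlying the arc relation `A`, induced on `M`, has a Borel proper colouring with
`k` colours, that is, its Borel chromatic number is at most `k` (for `k ≥ 1`). -/
def BorelColorable {V : Type} [MeasurableSpace V] (A : V → V → Prop) (M : Set V) (k : ℕ) : Prop :=
  ∃ c : M → Fin k, Measurable c ∧ ∀ x y : M, A x y ∨ A y x → c x ≠ c y

/-- A Borel directed graph on a standard Borel space: an irreflexive Borel arc relation. -/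
structure IsBorelDigraph {V : Type} [MeasurableSpace V] (A : V → V → Prop) : Prop where
  standard : StandardBorelSpace V
  irrefl : ∀ x, ¬ A x x
  borel : MeasurableSet {p : V × V | A p.1 p.2}

/-- The arc relation of the example. -/
def arc (x y : XX) : Prop := y = rot x ∨ y = del x

theorem arc_irrefl (x : XX) : ¬ arc x x := by
  rintro (h | h)
  · exact lab_rot x (congrArg lab h).symm
  · exact lab_del x (congrArg lab h).symm

theorem arc_measurable : MeasurableSet {p : XX × XX | arc p.1 p.2} := by
  have h1 : MeasurableSet {p : XX × XX | p.2 = rot p.1} :=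
    measurableSet_eq_fun measurable_snd (measurable_rot.comp measurable_fst)
  have h2 : MeasurableSet {p : XX × XX | p.2 = del p.1} :=
    measurableSet_eq_fun measurable_snd (measurable_del.comp measurable_fst)
  exact h1.union h2

theorem encard_pair_le {V : Type} (a b : V) : ({a, b} : Set V).encard ≤ 2 := by
  calc ({a, b} : Set V).encard ≤ ({b} : Set V).encard + 1 := Set.encard_insert_le _ _
    _ = 2 := by rw [Set.encard_singleton]; exact one_add_one_eq_two

theorem out_le (x : XX) : {y | arc x y}.encard ≤ 2 := by
  have : {y | arc x y} = {rot x, del x} := by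
    ext y; simp [arc]
  rw [this]
  exact encard_pair_le _ _

theorem in_le (x : XX) : {y | arc y x}.encard ≤ 2 := by
  have : {y | arc y x} ⊆ {rot (rot x), del (del x)} := by
    rintro y (h | h)
    · left; rw [h, rot3]
    · right; rw [Set.mem_singleton_iff, h, del3]
  exact (Set.encard_le_encard this).trans (encard_pair_le _ _)

theorem colorable5 : BorelColorable arc Set.univ 5 := by
  refine ⟨fun x => lab x.1, measurable_lab.comp measurable_subtype_coe, ?_⟩
  have h : ∀ x y : XX, arc x y → lab x ≠ lab y := by
    rintro x y (rfl | rfl)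
    · exact (lab_rot x).symm
    · exact (lab_del x).symm
  rintro ⟨x, _⟩ ⟨y, _⟩ (hxy | hxy)
  · exact h x y hxy
  · exact (h y x hxy).symm

theorem no_dominating {M : Set XX} (hM : MeasurableSet M)
    (hdom : ∀ x, x ∈ M ∨ ∃ y ∈ M, arc x y) : ¬ BorelColorable arc M 2 := by
  rintro ⟨c, hc, hcol⟩
  -- the vertices of `M` of colour `i`
  let C : Fin 2 → Set XX := fun i => Subtype.val '' (c ⁻¹' {i})
  have hCm : ∀ i, MeasurableSet (C i) := fun i =>
    hM.subtype_image (hc (measurableSet_singleton i))
  have hCM : ∀ i x, x ∈ C i → x ∈ M := by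
    rintro i x ⟨y, _, rfl⟩; exact y.2
  have hcov : ∀ x, x ∈ M → x ∈ C 0 ∨ x ∈ C 1 := by
    intro x hx
    have : c ⟨x, hx⟩ = 0 ∨ c ⟨x, hx⟩ = 1 := by
      generalize c ⟨x, hx⟩ = i
      revert i; decide
    rcases this with h | h
    · left; exact ⟨⟨x, hx⟩, h, rfl⟩
    · right; exact ⟨⟨x, hx⟩, h, rfl⟩
  have hind : ∀ i x y, x ∈ C i → y ∈ C i → ¬ arc x y := by
    rintro i _ _ ⟨x, hx, rfl⟩ ⟨y, hy, rfl⟩ hxy
    exact hcol x y (Or.inl hxy) (by rw [hx, hy])
  have hdisj : ∀ x, x ∈ C 0 → x ∈ C 1 → False := by
    rintro _ ⟨x, hx, rfl⟩ ⟨y, hy, hyx⟩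
    have : y = x := Subtype.ext hyx
    subst this
    have h1 : c y = 0 := hx
    have h2 : c y = 1 := hy
    rw [h1] at h2
    exact absurd h2 (by decide)
  let A : Set XX := C 0 ∪ (Mᶜ ∩ rot ⁻¹' M)
  have hA : MeasurableSet A := (hCm 0).union (hM.compl.inter (measurable_rot hM))
  rcases marks hA with ⟨x, h0, h1, h2⟩ | ⟨x, h0, h1, h2⟩
  · -- a triangle of `rot` inside `A`
    -- no two consecutive points lie outside `M`
    have key : ∀ y, y ∈ A → rot y ∈ A → y ∉ M → rot y ∈ C 0 := by
      intro y hy hy' hyM
      rcases hy with hy | hy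
      · exact absurd (hCM _ _ hy) hyM
      · rcases hy' with hy' | hy'
        · exact hy'
        · exact absurd hy.2 hy'.1
    have key2 : ∀ y, y ∈ A → y ∈ M → y ∈ C 0 := by
      intro y hy hyM
      rcases hy with hy | hy
      · exact hy
      · exact absurd hyM hy.1
    have h3 : rot (rot (rot x)) = x := rot3 x
    have a01 : arc x (rot x) := Or.inl rfl
    have a12 : arc (rot x) (rot (rot x)) := Or.inl rfl
    have a20 : arc (rot (rot x)) x := Or.inl h3.symm
    by_cases m0 : x ∈ M
    · have c0 := key2 x h0 m0
      have m1 : rot x ∉ M := fun m1 => hind 0 _ _ c0 (key2 _ h1 m1) a01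
      have c2 := key _ h1 h2 m1
      exact hind 0 _ _ c2 c0 a20
    · have c1 := key x h0 h1 m0
      have m2 : rot (rot x) ∉ M := fun m2 => hind 0 _ _ c1 (key2 _ h2 m2) a12
      have c0 := key _ h2 (by rw [h3]; exact h0) m2
      rw [h3] at c0
      exact m0 (hCM _ _ c0)
  · -- a triangle of `del` outside `A`
    have key : ∀ y, y ∉ A → y ∉ M → del y ∈ M := by
      intro y hy hyM
      rcases hdom y with h | ⟨z, hz, rfl | rfl⟩
      · exact absurd h hyM
      · exact absurd (Or.inr ⟨hyM, hz⟩) hy
      · exact hz
    have key2 : ∀ y, y ∉ A → y ∈ M → y ∈ C 1 := by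
      intro y hy hyM
      rcases hcov y hyM with h | h
      · exact absurd (Or.inl h) hy
      · exact h
    have h3 : del (del (del x)) = x := del3 x
    have a01 : arc x (del x) := Or.inr rfl
    have a12 : arc (del x) (del (del x)) := Or.inr rfl
    have a20 : arc (del (del x)) x := Or.inr h3.symm
    by_cases m0 : x ∈ M
    · have c0 := key2 x h0 m0
      have m1 : del x ∉ M := fun m1 => hind 1 _ _ c0 (key2 _ h1 m1) a01
      have c2 := key2 _ h2 (key _ h1 m1)
      exact hind 1 _ _ c2 c0 a20
    · have c1 := key2 _ h1 (key x h0 m0)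
      have m2 : del (del x) ∉ M := fun m2 => hind 1 _ _ c1 (key2 _ h2 m2) a12
      have m3 := key _ h2 m2
      rw [h3] at m3
      exact m0 m3

/-- **Negative answer to Q1.** There is a Borel directed graph on a standard Borel space in which
all out-degrees and all in-degrees are at most two (in particular it is locally countable), whose
underlying graph has Borel chromatic number at most five, and such that for every Borel set `M`
such that every vertex is in `M` or has an out-neighbour in `M`, the graph induced on `M` has no
Borel proper colouring with two colours. -/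
theorem result : ∃ (V : Type) (_ : MeasurableSpace V) (A : V → V → Prop),
    IsBorelDigraph A ∧
    (∀ x, {y | A x y}.encard ≤ 2) ∧
    (∀ x, {y | A y x}.encard ≤ 2) ∧
    BorelColorable A Set.univ 5 ∧
    ∀ M : Set V, MeasurableSet M → (∀ x, x ∈ M ∨ ∃ y ∈ M, A x y) → ¬ BorelColorable A M 2 :=
  ⟨XX, inferInstance, arc, ⟨inferInstance, arc_irrefl, arc_measurable⟩, out_le, in_le, colorable5,
    fun _ hM hdom => no_dominating hM hdom⟩

end Pool.Agent.Results.MP_b8e903_lc.BorelCounterexample
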